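import Pool.Agent.Mg.F32a90ap.G57ddb4

set_option autoImplicit false

namespace Pool.Agent.Results.MP_32a90a_pr.Disproof

open Pool.Agent.MP_32a90a_pr Filter
open scoped Classical

/-- For every sufficiently large even degree d there are infinitely many n = 2k such that, for
more than half of the d-regular simple graphs on n vertices, max + min of the balanced quadratic
form has absolute value larger than exp(-d^2)/2. -/
theorem result : ∃ d0 : ℕ, 3 ≤ d0 ∧ ∀ d : ℕ, d0 ≤ d → Even d → ∃ᶠ k : ℕ in atTop,
    (1 / 2 : ℝ) < ({G : SimpleGraph (Fin (2 * k)) | G.IsRegularOfDegree d ∧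
          Real.exp (-((d : ℝ) ^ 2)) / 2 < |sSup (vals G) + sInf (vals G)|}.ncard : ℝ)
        / ({G : SimpleGraph (Fin (2 * k)) | G.IsRegularOfDegree d}.ncard : ℝ) := by
  obtain ⟨a, ha⟩ := eventually_atTop.1 (D.ZAll.strong D.FAll.aPhi D.FAll.aB3)
  exact ⟨max a 3, le_max_right _ _, fun d hd => ha d (le_trans (le_max_left _ _) hd)⟩

end Pool.Agent.Results.MP_32a90a_pr.Disproof
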