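import Pool.Agent.Mg.F32a90ap.Ga8062e

set_option autoImplicit false

namespace Pool.Agent.Results.MP_32a90a_pr.LargeDegree

open Pool.Agent.MP_32a90a_pr Filter Topology
open scoped Classical

/-- There is an absolute constant C such that, for every degree d, the probability that
max + min of the balanced quadratic form of a uniformly random d-regular simple graph on n = 2k
vertices exceeds C d^(-1/100) tends to 0. -/
theorem result : ∃ C : ℝ, ∀ d : ℕ, 3 ≤ d →
    Tendsto (fun k : ℕ =>
      ({G : SimpleGraph (Fin (2 * k)) | G.IsRegularOfDegree d ∧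
          C * (d : ℝ) ^ (-(1 / 100 : ℝ)) < sSup (vals G) + sInf (vals G)}.ncard : ℝ)
        / ({G : SimpleGraph (Fin (2 * k)) | G.IsRegularOfDegree d}.ncard : ℝ)) atTop (𝓝 0) := by
  obtain ⟨C, hC⟩ := L.large_degree L.mean_all L.stTransfer
  exact ⟨C, fun d hd => hC d (by omega)⟩

end Pool.Agent.Results.MP_32a90a_pr.LargeDegree
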