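import Pool.Agent.Mg.F32a90ap.Gb8a124

set_option autoImplicit false

namespace Pool.Agent.Results.MP_32a90a_pr.OneSided

open Pool.Agent.MP_32a90a_pr Filter Topology
open scoped Classical

/-- For a uniformly random d-regular simple graph on n = 2k vertices, the probability that
max + min of the balanced quadratic form is below -ε tends to 0. -/
theorem result (d : ℕ) (hd : 3 ≤ d) (ε : ℝ) (hε : 0 < ε) :
    Tendsto (fun k : ℕ =>
      ({G : SimpleGraph (Fin (2 * k)) | G.IsRegularOfDegree d ∧
          sSup (vals G) + sInf (vals G) < -ε}.ncard : ℝ)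
        / ({G : SimpleGraph (Fin (2 * k)) | G.IsRegularOfDegree d}.ncard : ℝ)) atTop (𝓝 0) :=
  one_sided d (by omega) ε hε

end Pool.Agent.Results.MP_32a90a_pr.OneSided
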